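import Pool.Agent.H51.EP.Final

/-!
# The existence property of `HA + Diag(M)` for the models `M` of the `Π₂` theorems of `PA`

The definitions (terms and formulas with constants, natural deduction, the theories `HA`, `PA`,
`HA + Diag(M)`) are in `Pool.Agent.H51.EP.Syn`.
-/

set_option autoImplicit false

universe u

namespace Pool.Agent.Results.MP_ebcb3a_lc.ExistenceProperty

open Pool.Agent.H51.EP

/-- For every classical structure `M` for the language of arithmetic which satisfies all `Π₂`
sentences provable in `PA` the theory `HA + Diag(M)` has the existence property: if it proves
`∃ x, φ(x)`, then it proves `φ(t)` for a closed term `t`. -/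
theorem result : ∀ (M : Type u) (A : Syn.Str M), Syn.ModelsPi₂PA A →
    Syn.ExistenceProperty (Syn.HADiag A) :=
  fun M A h => existence M A h

end Pool.Agent.Results.MP_ebcb3a_lc.ExistenceProperty
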